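import Pool.Agent.TH719.ED.Defs
import Pool.Agent.TH541.EDHarm
import Pool.Agent.TH350.EntropyFacts
import Pool.Agent.TH298.HarmonicRep
import Pool.Agent.TH142.ED.Orth
import Pool.Agent.TH730.UT.Main

/-!
# Finitely generated torsion groups of polynomial growth are finite (helper719)
-/

set_option autoImplicit false

namespace Pool.Agent.TH719.ED

open scoped Pointwise

/-- a harmonic cocycle of a finitely generated torsion group with finite linear part vanishes -/
theorem cocycle_zero {G : Type} [Group G] (S : Finset G)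
    (hgen : ∀ P : Set G, (1 : G) ∈ P → (∀ x ∈ P, ∀ s ∈ S, x * s ∈ P) → P = Set.univ)
    (htor : ∀ g : G, IsOfFinOrder g) (V : Type) [NormedAddCommGroup V] [InnerProductSpace ℝ V]
    (ρ : G →* (V ≃ₗᵢ[ℝ] V)) (hρ : (Set.range ρ).Finite) (b : G → V)
    (hb : ∀ x y, b (x * y) = b x + ρ x (b y))
    (hh : ∀ x, ∑ s ∈ S, b (x * s) = (S.card : ℝ) • b x) (x : G) : b x = 0 := by
  have hb1 : b 1 = 0 := by
    have := hb 1 1
    simp at this
    exact this
  -- the kernel
  have hker : ∀ g, ρ g = 1 → b g = 0 := by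
    intro g hg
    have hpow : ∀ n : ℕ, b (g ^ n) = (n : ℝ) • b g := by
      intro n
      induction n with
      | zero => simp [hb1]
      | succ n ih =>
        rw [pow_succ', hb, ih, hg]
        simp only [LinearIsometryEquiv.coe_one, id_eq, Nat.cast_add, Nat.cast_one, add_smul,
          one_smul]
        abel
    obtain ⟨n, hn, hgn⟩ := isOfFinOrder_iff_pow_eq_one.1 (htor g)
    have := hpow n
    rw [hgn, hb1] at this
    have h2 : (n : ℝ) ≠ 0 := by positivity
    exact (smul_eq_zero.1 this.symm).resolve_left h2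
  -- finitely many values
  have hfin : (Set.range b).Finite := by
    have h1 : ∀ g h : G, ρ g = ρ h → b g⁻¹ = b h⁻¹ := by
      intro g h he
      have h2 : ρ (h⁻¹ * g) = 1 := by rw [map_mul, map_inv, he]; simp
      have h3 := hker _ h2
      have h4 : b h⁻¹ = b (h⁻¹ * g * g⁻¹) := by rw [mul_assoc]; simp
      rw [h4, hb, h3, h2]
      simp
    have h2 : Set.range b ⊆ (fun T : V ≃ₗᵢ[ℝ] V => b (Function.invFun ρ T)⁻¹) '' Set.range ρ := by
      rintro _ ⟨g, rfl⟩
      refine ⟨ρ g⁻¹, ⟨g⁻¹, rfl⟩, ?_⟩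
      have h3 : ρ (Function.invFun ρ (ρ g⁻¹)) = ρ g⁻¹ := Function.invFun_eq ⟨g⁻¹, rfl⟩
      have := h1 _ _ h3
      simpa using this
    exact (hρ.image _).subset h2
  -- maximum principle
  by_contra hne
  set F : G → ℝ := fun y => inner ℝ (b x) (b y) with hF
  have hFfin : (Set.range F).Finite := by
    have : Set.range F = (fun v => inner ℝ (b x) v) '' Set.range b := by
      rw [← Set.range_comp]; rfl
    rw [this]
    exact hfin.image _
  obtain ⟨_, ⟨x1, rfl⟩, hx1⟩ := Set.exists_max_image (Set.range F) id hFfin ⟨F 1, 1, rfl⟩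
  have hmax : ∀ y, F y ≤ F x1 := fun y => hx1 _ ⟨y, rfl⟩
  have hharm : ∀ y, ∑ s ∈ S, F (y * s) = S.card * F y := by
    intro y
    simp only [hF]
    rw [← inner_sum, hh, inner_smul_right]
  have hconst : ∀ y, F y = F x1 := by
    have h1 : {y | F (x1 * y) = F x1} = Set.univ := by
      apply hgen
      · simp
      · intro y hy s hs
        simp only [Set.mem_ofPred_eq] at hy ⊢
        have h2 := hharm (x1 * y)
        have h3 : ∑ s ∈ S, (F x1 - F (x1 * y * s)) = 0 := by
          rw [Finset.sum_sub_distrib, h2, hy]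
          simp
        have h4 := (Finset.sum_eq_zero_iff_of_nonneg (fun s _ => sub_nonneg.2 (hmax _))).1 h3 s hs
        rw [← mul_assoc]
        linarith
    intro y
    have h2 : x1⁻¹ * y ∈ {y | F (x1 * y) = F x1} := by rw [h1]; trivial
    simpa using h2
  have h5 : F x = F 1 := by rw [hconst x, hconst 1]
  simp only [hF] at h5
  rw [hb1, inner_zero_right, real_inner_self_eq_norm_sq] at h5
  have : ‖b x‖ ≠ 0 := by simpa using hne
  exact this (by simpa using h5)

/-- induction over the products of elements of a symmetric generating set -/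
theorem gen_induct {G : Type} [Group G] (S : Finset G) (hS : ∀ x ∈ S, x⁻¹ ∈ S)
    (hgen : Subgroup.closure (S : Set G) = ⊤) (P : Set G) (h1 : (1 : G) ∈ P)
    (h2 : ∀ x ∈ P, ∀ s ∈ S, x * s ∈ P) : P = Set.univ := by
  rw [Set.eq_univ_iff_forall]
  intro g
  have hg : g ∈ Subgroup.closure (S : Set G) := by rw [hgen]; trivial
  induction hg using Subgroup.closure_induction_right with
  | one => exact h1
  | mul_right x hx y hy ih => exact h2 x ih y hy
  | mul_inv_cancel x hx y hy ih => exact h2 x ih _ (hS y hy)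

theorem pow_finite {G : Type} [Group G] (S : Finset G) (k : ℕ) : ((S : Set G) ^ k).Finite := by
  classical
  rw [← Finset.coe_pow]
  exact Finset.finite_toSet _

theorem ncard_pow_insert {G : Type} [Group G] (S : Finset G) (C d : ℕ)
    (h : ∀ n : ℕ, ((S : Set G) ^ n).ncard ≤ C * (n + 1) ^ d) (n : ℕ) :
    ((insert 1 (S : Set G)) ^ n).ncard ≤ C * (n + 1) ^ (d + 1) := by
  have hfin : ∀ k, ((S : Set G) ^ k).Finite := fun k => pow_finite S k
  have h1 : ∀ n : ℕ, (insert 1 (S : Set G)) ^ n ⊆ ⋃ k ∈ Finset.range (n + 1), (S : Set G) ^ k := by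
    intro n
    induction n with
    | zero => simp
    | succ n ih =>
      intro x hx
      rw [pow_succ] at hx
      obtain ⟨y, hy, s, hs, rfl⟩ := Set.mem_mul.1 hx
      have hy' := ih hy
      simp only [Finset.mem_range, Set.mem_iUnion, exists_prop] at hy' ⊢
      obtain ⟨k, hk, hyk⟩ := hy'
      rcases hs with rfl | hs
      · exact ⟨k, by omega, by simpa using hyk⟩
      · exact ⟨k + 1, by omega, by rw [pow_succ]; exact Set.mul_mem_mul hyk hs⟩
  have h2 : ∀ n : ℕ, (⋃ k ∈ Finset.range (n + 1), (S : Set G) ^ k).ncard ≤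
      ∑ k ∈ Finset.range (n + 1), ((S : Set G) ^ k).ncard := by
    intro n
    exact Finset.set_ncard_biUnion_le _ _
  refine (Set.ncard_le_ncard (h1 n) ?_).trans ((h2 n).trans ?_)
  · exact (Finset.range (n + 1)).finite_toSet.biUnion (fun k _ => hfin k)
  · calc ∑ k ∈ Finset.range (n + 1), ((S : Set G) ^ k).ncard
        ≤ ∑ k ∈ Finset.range (n + 1), C * (n + 1) ^ d := by
          refine Finset.sum_le_sum fun k hk => (h k).trans ?_
          refine Nat.mul_le_mul_left _ (Nat.pow_le_pow_left ?_ _)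
          have := Finset.mem_range.1 hk
          omega
      _ = C * (n + 1) ^ (d + 1) := by
          rw [Finset.sum_const, Finset.card_range, smul_eq_mul, pow_succ]
          ring

theorem polyGrowth_of_gen {G : Type} [Group G] (S : Finset G) (h1 : (1 : G) ∈ S)
    (hS : ∀ x ∈ S, x⁻¹ ∈ S) (hgen : Subgroup.closure (S : Set G) = ⊤) (C d : ℕ)
    (h : ∀ n : ℕ, ((S : Set G) ^ n).ncard ≤ C * (n + 1) ^ d) : PolyGrowth G d := by
  intro T
  have hmono : ∀ m n : ℕ, m ≤ n → (S : Set G) ^ m ⊆ (S : Set G) ^ n := fun m n hmn =>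
    Set.pow_subset_pow_right (Finset.mem_coe.2 h1) hmn
  have hcover : ∀ g : G, ∃ k : ℕ, g ∈ (S : Set G) ^ k := by
    have := gen_induct S hS hgen {g | ∃ k : ℕ, g ∈ (S : Set G) ^ k} ⟨0, by simp⟩ (by
      rintro x ⟨k, hk⟩ s hs
      exact ⟨k + 1, by rw [pow_succ]; exact Set.mul_mem_mul hk hs⟩)
    intro g
    have hg : g ∈ {g | ∃ k : ℕ, g ∈ (S : Set G) ^ k} := by rw [this]; trivial
    exact hg
  choose k hk using hcover
  set K := T.sup k with hK
  have hT : (T : Set G) ⊆ (S : Set G) ^ K := fun g hg =>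
    hmono _ _ (Finset.le_sup (f := k) hg) (hk g)
  refine ⟨C * (K + 1) ^ d, fun n => ?_⟩
  have hfin : ((S : Set G) ^ (K * n)).Finite := pow_finite S _
  have h2 : (T : Set G) ^ n ⊆ (S : Set G) ^ (K * n) := by
    rw [pow_mul]
    exact Set.pow_subset_pow_left hT
  refine (Set.ncard_le_ncard h2 hfin).trans ((h _).trans ?_)
  rw [mul_assoc, ← mul_pow]
  refine Nat.mul_le_mul_left _ (Nat.pow_le_pow_left ?_ _)
  nlinarith

theorem finite_of_poly {G : Type} [Group G] (S : Finset G)
    (hS : ∀ x ∈ S, x⁻¹ ∈ S) (hgen : Subgroup.closure (S : Set G) = ⊤)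
    (htor : ∀ g : G, IsOfFinOrder g)
    (hpoly : ∃ C d : ℕ, ∀ n : ℕ, ((S : Set G) ^ n).ncard ≤ C * (n + 1) ^ d) : Finite G := by
  classical
  by_contra hfin
  have hinf : Infinite G := not_finite_iff_infinite.1 hfin
  obtain ⟨C, d, hpoly⟩ := hpoly
  set S' := insert 1 S with hS'
  have hcoe : (S' : Set G) = insert 1 (S : Set G) := by simp [hS']
  have h1 : (1 : G) ∈ S' := by simp [hS']
  have hS2 : ∀ x ∈ S', x⁻¹ ∈ S' := by
    intro x hx
    rcases Finset.mem_insert.1 hx with rfl | hx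
    · simp [hS']
    · exact Finset.mem_insert_of_mem (hS x hx)
  have hgen2 : Subgroup.closure (S' : Set G) = ⊤ := by
    rw [eq_top_iff, ← hgen]
    exact Subgroup.closure_mono (by rw [hcoe]; exact Set.subset_insert _ _)
  have hpoly2 : ∀ n : ℕ, ((S' : Set G) ^ n).ncard ≤ C * (n + 1) ^ (d + 1) := by
    intro n
    rw [hcoe]
    exact ncard_pow_insert S C d hpoly n
  obtain ⟨f, L, hf1, hf2, hf3⟩ := exists_harmonic S' h1 hS2 hgen2 ⟨C, d + 1, hpoly2⟩
  obtain ⟨C0, hE1, hE2⟩ := entropy_facts S' ⟨1, h1⟩ ⟨C, d + 1, hpoly2⟩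
  obtain ⟨V, _, _, _, ρ, b, hb1, hb2, x, hb3⟩ :=
    harmonic_rep S' h1 hS2 hgen2 C0 hE1 hE2 f L hf1 hf2 hf3
  have hPG : PolyGrowth G (d + 1) := polyGrowth_of_gen S' h1 hS2 hgen2 C (d + 1) hpoly2
  have hFG : Group.FG G := ⟨⟨S', hgen2⟩⟩
  have hrange : (Set.range ρ).Finite :=
    orthogonal_torsion (d + 1) G htor hPG V ρ
      (fun E _ _ _ ρ => unitary_torsion (d + 1) G htor hPG E ρ)
  exact hb3 (cocycle_zero S' (gen_induct S' hS2 hgen2) htor V ρ hrange b hb1 hb2 x)

end Pool.Agent.TH719.ED
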