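import Pool.Agent.TH719.ED.Defs
import Pool.Agent.TH642.RoughFun
import Pool.Agent.TH816.Fam
import Pool.Agent.TH429.J900

/-!
# Sweepable groups are torsion groups (helper719)
-/

set_option autoImplicit false

namespace Pool.Agent.TH719.ED

theorem torsion_of_sweepable {G : Type} [Group G] (g : G)
    (h : Sweepable ({1, g, g⁻¹} : Set G)) : IsOfFinOrder g := by
  by_contra hg
  obtain ⟨r, c, h⟩ := h
  have hinj : Function.Injective (fun n : ℤ => g ^ n) := by
    rw [injective_zpow_iff_not_isOfFinOrder]
    exact hg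
  obtain ⟨f, A, hf0, hf1, hfA, hno⟩ := rough_function (2 * r)
  obtain ⟨x, h1, h2, h3, h4, h5⟩ := family_of_sweepable r c (by
    intro m k hk0 hkm hk
    obtain ⟨T, L, hL⟩ := h m (fun i => g ^ k i) (by simp [hk0]) (by simp [hkm]) (by
      intro i hi
      have h1 := abs_le.1 (hk i hi)
      have h2 : (g ^ k i)⁻¹ * g ^ k (i + 1) = g ^ (k (i + 1) - k i) := by
        rw [← zpow_neg, ← zpow_add]
        congr 1
        ring
      rw [h2]
      have h3 : k (i + 1) - k i = 0 ∨ k (i + 1) - k i = 1 ∨ k (i + 1) - k i = -1 := by omega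
      rcases h3 with h3 | h3 | h3 <;> rw [h3] <;> simp)
    refine ⟨T, L, hL.len, hL.sorted, hL.bdd, hL.anti, hL.start, hL.step, hL.final, ?_⟩
    intro t
    obtain ⟨M, hM1, hM2, hM3, hM4⟩ := hL.rel t
    refine ⟨M, hM1, hM2, hM3, ?_⟩
    have hφ : Function.Injective (zpowersHom G g) := by
      intro a b hab
      have : g ^ (Multiplicative.toAdd a) = g ^ (Multiplicative.toAdd b) := hab
      exact Multiplicative.toAdd.injective (hinj this)
    apply hφ
    rw [map_list_prod, List.map_map, map_one]
    rw [← hM4]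
    congr 1
    apply List.map_congr_left
    intro a _
    simp only [Function.comp_apply, map_mul, map_inv, zpowersHom_apply, toAdd_ofAdd]) f A hf0 hf1 hfA
  have hcont : ContinuousOn f (Set.Icc 0 1) := by
    intro y hy
    rw [ContinuousWithinAt, tendsto_iff_dist_tendsto_zero]
    have h6 : Filter.Tendsto (fun z : ℝ => A * Real.sqrt |z - y|)
        (nhdsWithin y (Set.Icc 0 1)) (nhds 0) := by
      have : Continuous (fun z : ℝ => A * Real.sqrt |z - y|) := by fun_prop
      have h7 := (this.tendsto y).mono_left (nhdsWithin_le_nhds (s := Set.Icc (0 : ℝ) 1))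
      simpa using h7
    refine squeeze_zero' (Filter.Eventually.of_forall fun z => dist_nonneg) ?_ h6
    filter_upwards [self_mem_nhdsWithin] with z hz
    rw [Real.dist_eq]
    exact hfA z hz y hy
  obtain ⟨n, hn, ε, w, z, a, b, hab, k1, k2, k3, k4, k5, k6⟩ :=
    heads_of_family r f hcont x h1 h2 h3 h4 h5
  exact hno n hn ε w z a b hab k1 k2 k3 k4 k5 k6

end Pool.Agent.TH719.ED
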