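import Pool.Agent.TH719.ED.Swp
import Pool.Agent.TH719.ED.Tors
import Pool.Agent.TH719.ED.FinPoly
import Pool.Agent.TH858.ED4

/-!
# A group with EDT0L word problem is finite (helper719)
-/

set_option autoImplicit false

namespace Pool.Agent.TH719.ED

theorem finite_of_subsingleton {G : Type} [Group G] (X : Set G)
    (hgen : ∀ g : G, ∃ w : List G, (∀ x ∈ w, x ∈ X) ∧ w.prod = g)
    (hXi : ∀ x ∈ X, x⁻¹ ∈ X) (h : ∀ p ∈ X, ∀ q ∈ X, p = q) : Finite G := by
  by_cases hX : X.Nonempty
  · obtain ⟨p, hp⟩ := hX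
    have hpp : p * p = 1 := by
      have := h p hp p⁻¹ (hXi p hp)
      nth_rewrite 2 [this]
      simp
    have key : ∀ w : List G, (∀ x ∈ w, x ∈ X) → w.prod = 1 ∨ w.prod = p := by
      intro w
      induction w with
      | nil => intro _; left; rfl
      | cons a w ih =>
        intro hw
        have ha : a = p := h a (hw a (by simp)) p hp
        rw [List.prod_cons, ha]
        rcases ih (fun x hx => hw x (by simp [hx])) with h1 | h1 <;> rw [h1]
        · right; simp
        · left; exact hpp
    have hfin : (Set.univ : Set G).Finite := by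
      refine (Set.toFinite ({1, p} : Set G)).subset ?_
      intro g _
      obtain ⟨w, hw, rfl⟩ := hgen g
      exact key w hw
    exact Set.finite_univ_iff.1 hfin
  · have hfin : (Set.univ : Set G).Finite := by
      refine (Set.toFinite ({1} : Set G)).subset ?_
      intro g _
      obtain ⟨w, hw, rfl⟩ := hgen g
      rcases w with _ | ⟨a, w⟩
      · rfl
      · exact absurd ⟨a, hw a (by simp)⟩ hX
    exact Set.finite_univ_iff.1 hfin

theorem exists_word {G : Type} [Group G] (X : Finset G)
    (hgen : Subgroup.closure (X : Set G) = ⊤) (g : G) :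
    ∃ w : List G, (∀ x ∈ w, x ∈ X ∨ x⁻¹ ∈ X) ∧ w.prod = g := by
  have hg : g ∈ Subgroup.closure (X : Set G) := by rw [hgen]; trivial
  induction hg using Subgroup.closure_induction_right with
  | one => exact ⟨[], by simp, rfl⟩
  | mul_right x hx y hy ih =>
    obtain ⟨w, h1, h2⟩ := ih
    refine ⟨w ++ [y], ?_, by simp [h2]⟩
    intro z hz
    rcases List.mem_append.1 hz with hz | hz
    · exact h1 z hz
    · rw [List.mem_singleton] at hz
      rw [hz]
      exact Or.inl hy
  | mul_inv_cancel x hx y hy ih =>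
    obtain ⟨w, h1, h2⟩ := ih
    refine ⟨w ++ [y⁻¹], ?_, by simp [h2]⟩
    intro z hz
    rcases List.mem_append.1 hz with hz | hz
    · exact h1 z hz
    · rw [List.mem_singleton] at hz
      rw [hz, inv_inv]
      exact Or.inr hy

/-- A group with EDT0L word problem is finite. -/
theorem finite_of_edt0l (G : Type) [Group G] (X : Finset G)
    (hgen : Subgroup.closure (X : Set G) = ⊤)
    (h : ∃ (A : Type) (_ : Fintype A) (J : Type) (_ : Fintype J)
        (ι : G → A) (ω : List A) (σ : J → A → List A),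
      Set.InjOn ι {x : G | x ∈ X ∨ x⁻¹ ∈ X} ∧
      ∀ w : List G, (∀ x ∈ w, x ∈ X ∨ x⁻¹ ∈ X) →
        (w.prod = 1 ↔
          ∃ js : List J, js.foldl (fun u j => u.flatMap (σ j)) ω = w.map ι)) :
    Finite G := by
  classical
  obtain ⟨A, _, J, _, ι, ω, σ, hι, hL⟩ := h
  set Y : Set G := {x : G | x ∈ X ∨ x⁻¹ ∈ X} with hY
  have hYi : ∀ x ∈ Y, x⁻¹ ∈ Y := by
    rintro x (hx | hx)
    · right; rwa [inv_inv]
    · left; exact hx
  have hword : ∀ g : G, ∃ w : List G, (∀ x ∈ w, x ∈ Y) ∧ w.prod = g := exists_word X hgen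
  by_cases hpq : ∀ p ∈ Y, ∀ q ∈ Y, p = q
  · exact finite_of_subsingleton Y hword hYi hpq
  push Not at hpq
  obtain ⟨p, hp, q, hq, hpq⟩ := hpq
  have hsw : ∀ E : Finset G, Sweepable (E : Set G) := fun E =>
    sweepable_of_edt0l Y ι ω σ hword hYi hι hL p q hp hq hpq E
  have htor : ∀ g : G, IsOfFinOrder g := fun g => torsion_of_sweepable g (by
    have := hsw {1, g, g⁻¹}
    simpa using this)
  set S : Finset G := X ∪ X.image (fun x => x⁻¹) with hS
  have hSi : ∀ x ∈ S, x⁻¹ ∈ S := by
    intro x hx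
    rcases Finset.mem_union.1 hx with hx | hx
    · exact Finset.mem_union_right _ (Finset.mem_image_of_mem _ hx)
    · obtain ⟨y, hy, rfl⟩ := Finset.mem_image.1 hx
      rw [inv_inv]
      exact Finset.mem_union_left _ hy
  have hSgen : Subgroup.closure (S : Set G) = ⊤ := by
    rw [eq_top_iff, ← hgen]
    refine Subgroup.closure_mono ?_
    intro x hx
    exact Finset.mem_union_left _ hx
  exact finite_of_poly S hSi hSgen htor (growth_of_sweepable S hSi (hsw S))

end Pool.Agent.TH719.ED
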