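import Pool.Agent.TH719.ED.Seg

/-!
# Counting complete blocks (helper719)
-/

set_option autoImplicit false

namespace Pool.Agent.TH719.ED

variable {A : Type}

/-- the number of complete blocks before position `z` -/
def blk : List (List A) → ℕ → ℕ
  | [], _ => 0
  | C :: Cs, z => if z < C.length then 0 else 1 + blk Cs (z - C.length)

theorem lt_blk_iff (Cs : List (List A)) (j z : ℕ) :
    j < blk Cs z ↔ j < Cs.length ∧ ((Cs.take (j + 1)).flatten).length ≤ z := by
  induction Cs generalizing j z with
  | nil => simp [blk]
  | cons C Cs ih =>
    rw [blk]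
    split_ifs with h
    · simp only [not_lt_zero, List.length_cons, List.take_succ_cons, List.flatten_cons,
        List.length_append, false_iff, not_and, not_le]
      intro _
      omega
    · rcases j with _ | j
      · simp only [List.length_cons, List.take_succ_cons, List.take_zero,
          List.flatten_cons, List.flatten_nil, List.length_append, List.length_nil]
        constructor
        · intro _; omega
        · intro _; omega
      · have := ih j (z - C.length)
        simp only [List.length_cons, List.take_succ_cons, List.flatten_cons,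
          List.length_append]
        constructor
        · intro h1
          have h2 := this.1 (by omega)
          exact ⟨by omega, by omega⟩
        · intro h1
          have h2 := this.2 ⟨by omega, by omega⟩
          omega

theorem blk_le_length (Cs : List (List A)) (z : ℕ) : blk Cs z ≤ Cs.length := by
  by_contra h
  push Not at h
  have := (lt_blk_iff Cs _ z).1 h
  omega

theorem blk_mono (Cs : List (List A)) : Monotone (blk Cs) := by
  intro z z' h
  by_contra hc
  push Not at hc
  have h1 := (lt_blk_iff Cs _ z).1 hc
  have h2 := (lt_blk_iff Cs _ z').2 ⟨h1.1, h1.2.trans h⟩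
  omega

theorem blk_succ_le (Cs : List (List A)) (hC : ∀ C ∈ Cs, C ≠ []) (z : ℕ) :
    blk Cs (z + 1) ≤ blk Cs z + 1 := by
  by_contra hc
  push Not at hc
  have h1 := (lt_blk_iff Cs (blk Cs z + 1) (z + 1)).1 (by omega)
  have h2 : ¬ (blk Cs z < blk Cs z) := lt_irrefl _
  rw [lt_blk_iff] at h2
  apply h2
  refine ⟨by omega, ?_⟩
  have h3 : Cs.take (blk Cs z + 1 + 1) = Cs.take (blk Cs z + 1) ++ [Cs[blk Cs z + 1]] := by
    rw [List.take_succ_eq_append_getElem]
  rw [h3] at h1
  have h4 := hC _ (List.getElem_mem h1.1)
  have h5 : 0 < (Cs[blk Cs z + 1]).length := List.length_pos_iff.2 h4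
  simp only [List.flatten_append, List.length_append, List.flatten_cons, List.flatten_nil,
    List.append_nil] at h1
  omega

theorem blk_add_le (Cs : List (List A)) (hC : ∀ C ∈ Cs, C ≠ []) (z k : ℕ) :
    blk Cs (z + k) ≤ blk Cs z + k := by
  induction k with
  | zero => simp
  | succ k ih =>
    have := blk_succ_le Cs hC (z + k)
    rw [← Nat.add_assoc]
    omega

theorem blk_zero (Cs : List (List A)) (hC : ∀ C ∈ Cs, C ≠ []) : blk Cs 0 = 0 := by
  rcases Cs with _ | ⟨C, Cs⟩
  · rfl
  · rw [blk, if_pos]
    exact List.length_pos_iff.2 (hC C (by simp))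

theorem blk_total (Cs : List (List A)) : blk Cs Cs.flatten.length = Cs.length := by
  rcases Nat.lt_or_ge (blk Cs Cs.flatten.length) Cs.length with h | h
  · exfalso
    have h1 : ¬ (blk Cs Cs.flatten.length < blk Cs Cs.flatten.length) := lt_irrefl _
    rw [lt_blk_iff] at h1
    apply h1
    refine ⟨h, ?_⟩
    have h2 : Cs.flatten = (Cs.take (blk Cs Cs.flatten.length + 1)).flatten ++
        (Cs.drop (blk Cs Cs.flatten.length + 1)).flatten := by
      rw [← List.flatten_append, List.take_append_drop]
    have h3 := congrArg List.length h2
    rw [List.length_append] at h3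
    omega
  · exact le_antisymm (blk_le_length _ _) h

theorem take_flatten (Cs : List (List A)) (z : ℕ) :
    ∃ (C : List A) (k : ℕ), (C ∈ Cs ∨ C = []) ∧ k ≤ C.length ∧
      Cs.flatten.take z = (Cs.take (blk Cs z)).flatten ++ C.take k := by
  induction Cs generalizing z with
  | nil => exact ⟨[], 0, Or.inr rfl, by simp, by simp [blk]⟩
  | cons C Cs ih =>
    rw [blk]
    split_ifs with h
    · refine ⟨C, z, Or.inl (by simp), h.le, ?_⟩
      simp only [List.flatten_cons, List.take_zero, List.flatten_nil, List.nil_append]
      rw [List.take_append_of_le_length h.le]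
    · obtain ⟨C', k, h1, h2, h3⟩ := ih (z - C.length)
      refine ⟨C', k, h1.imp_left (List.mem_cons_of_mem _), h2, ?_⟩
      rw [List.flatten_cons, List.take_append, List.take_of_length_le (by omega), h3,
        Nat.add_comm 1, List.take_succ_cons, List.flatten_cons, List.append_assoc]

end Pool.Agent.TH719.ED
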