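import Mathlib

/-!
# Groups with EDT0L word problem: definitions (helper719)
-/

set_option autoImplicit false

namespace Pool.Agent.TH719.ED

open scoped Pointwise

/-- the positions covered by a list of half-open intervals -/
def Cov (L : List (ℕ × ℕ)) : Set ℕ := {j | ∃ a ∈ L, a.1 ≤ j ∧ j < a.2}

/-- A sweep of the closed path `S` of length `m` in a group: a decreasing sequence of unions of at
most `r` intervals, which loses at most `K` positions in each step, starts with almost everything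
and ends with nothing, and at each time the values `(S p)⁻¹ * S q` of the intervals multiply, in
order and with at most `c` further factors `(S i)⁻¹ * S i'` with `i ≤ i' ≤ i + K` put in between,
to `1`. -/
structure Sweep {G : Type} [Group G] (r c K m : ℕ) (S : ℕ → G) (T : ℕ)
    (L : ℕ → List (ℕ × ℕ)) : Prop where
  len : ∀ t, (L t).length ≤ r
  sorted : ∀ t, (L t).Pairwise (fun a b => a.2 ≤ b.1)
  bdd : ∀ t, ∀ a ∈ L t, a.1 ≤ a.2 ∧ a.2 ≤ m
  anti : ∀ t, Cov (L (t + 1)) ⊆ Cov (L t)
  start : (Set.Iio m \ Cov (L 0)).ncard ≤ K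
  step : ∀ t, (Cov (L t) \ Cov (L (t + 1))).ncard ≤ K
  final : Cov (L T) = ∅
  rel : ∀ t, ∃ M : List (Bool × ℕ × ℕ), M.length ≤ c ∧
    (M.filter (fun a => a.1)).map (fun a => a.2) = L t ∧
    (∀ a ∈ M, a.1 = false → a.2.1 ≤ a.2.2 ∧ a.2.2 ≤ a.2.1 + K ∧ a.2.2 ≤ m) ∧
    (M.map fun a => (S a.2.1)⁻¹ * S a.2.2).prod = 1

/-- every closed path with steps in `E` can be swept with logarithmic error -/
def Sweepable {G : Type} [Group G] (E : Set G) : Prop :=
  ∃ r c : ℕ, ∀ (m : ℕ) (S : ℕ → G), S 0 = 1 → S m = 1 →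
    (∀ i < m, (S i)⁻¹ * S (i + 1) ∈ E) →
    ∃ (T : ℕ) (L : ℕ → List (ℕ × ℕ)), Sweep r c (c * (Nat.log 2 m + 1)) m S T L

/-- every finite set has polynomial growth of degree `d` -/
def PolyGrowth (G : Type) [Group G] (d : ℕ) : Prop :=
  ∀ T : Finset G, ∃ C : ℕ, ∀ n : ℕ, ((T : Set G) ^ n).ncard ≤ C * (n + 1) ^ d

/-- the expectation of `F` at the `n`-th step of the random walk with uniform steps in `S` -/
noncomputable def Ex {G : Type} [Group G] (S : Finset G) : ℕ → (G → ℝ) → ℝ
  | 0, F => F 1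
  | n + 1, F => (∑ s ∈ S, Ex S n (fun y => F (s * y))) / S.card

/-- the union of finitely many half-open intervals -/
def IcoU {r : ℕ} (x : Fin r → ℝ × ℝ) : Set ℝ := ⋃ j, Set.Ico (x j).1 (x j).2

end Pool.Agent.TH719.ED
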