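import Pool.Agent.TH719.ED.Blk

/-!
# The relation at a time of a derivation (helper719)
-/

set_option autoImplicit false

namespace Pool.Agent.TH719.ED

/-- a representative of bounded size for each value of a key with finite range -/
theorem exists_bound {β κ : Type*} (P : β → Prop) (key : β → κ) (size : β → ℕ)
    (hfin : (key '' {x | P x}).Finite) :
    ∃ c, ∀ x, P x → ∃ y, P y ∧ key y = key x ∧ size y ≤ c := by
  classical
  have h : ∀ k ∈ key '' {x | P x}, ∃ n : ℕ, ∃ y, P y ∧ key y = k ∧ size y ≤ n := by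
    rintro k ⟨y, hy, rfl⟩
    exact ⟨size y, y, hy, rfl, le_rfl⟩
  choose! n hn using h
  refine ⟨hfin.toFinset.sup n, fun x hx => ?_⟩
  have hx' : key x ∈ key '' {x | P x} := ⟨x, hx, rfl⟩
  obtain ⟨y, h1, h2, h3⟩ := hn _ hx'
  exact ⟨y, h1, h2, h3.trans (Finset.le_sup (f := n) (hfin.mem_toFinset.2 hx'))⟩

variable {G : Type} [Group G] {A : Type} {J : Type}

/-- the coloured word `v` starts with colour `x`, ends with colour `y`, and its colours match -/
def Chn : List (A × G × G) → G → G → Prop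
  | [], x, y => x = y
  | a :: v, x, y => a.2.1 = x ∧ Chn v a.2.2 y

/-- the image of a letter under a sequence of tables -/
def Phi (σ : J → A → List A) (js : List J) (a : A) : List A :=
  js.foldl (fun u j => u.flatMap (σ j)) [a]

theorem foldl_eq_flatMap (σ : J → A → List A) (js : List J) (v : List A) :
    js.foldl (fun u j => u.flatMap (σ j)) v = v.flatMap (Phi σ js) := by
  induction js generalizing v with
  | nil =>
    simp only [List.foldl_nil]
    induction v with
    | nil => rfl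
    | cons a v ih => rw [List.flatMap_cons, ← ih]; rfl
  | cons j js ih =>
    rw [List.foldl_cons, ih, List.flatMap_assoc]
    congr 1
    funext a
    rw [Phi, List.foldl_cons, ih]
    simp

theorem Phi_cons (σ : J → A → List A) (j : J) (js : List J) (a : A) :
    Phi σ (j :: js) a = (σ j a).flatMap (Phi σ js) := by
  rw [Phi, List.foldl_cons, foldl_eq_flatMap]
  simp

theorem Phi_nil (σ : J → A → List A) (a : A) : Phi σ [] a = [a] := rfl

/-- the subword of `W` at a segment -/
def sub (W : List G) (s : A × ℕ × ℕ) : List G := (W.drop s.2.1).take (s.2.2 - s.2.1)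

theorem prod_sub (W : List G) (s : A × ℕ × ℕ) (h : s.2.1 ≤ s.2.2) :
    (sub W s).prod = ((W.take s.2.1).prod)⁻¹ * (W.take s.2.2).prod := by
  have h1 : W.take s.2.2 = W.take s.2.1 ++ sub W s := by
    have : s.2.2 = s.2.1 + (s.2.2 - s.2.1) := by omega
    rw [this, sub, List.take_add]
  rw [h1, List.prod_append]
  group

/-- the coloured words which are realised as pasts, with their sets of long letters -/
def IsPast (σ : J → A → List A) (ω : List A) (Q : Set G) (x : List (A × G × G) × (A → Bool)) :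
    Prop :=
  (∃ js : List J, js.foldl (fun u j => u.flatMap (σ j)) ω = x.1.map Prod.fst) ∧ Chn x.1 1 1 ∧
    (∀ a ∈ x.1, a.2.1 ∈ Q ∧ a.2.2 ∈ Q) ∧ ((x.1.map Prod.fst).filter x.2).Nodup

/-- the type of a coloured word -/
def key (x : List (A × G × G) × (A → Bool)) : Set (A × G × G) × List A × (A → Bool) :=
  ({a | a ∈ x.1}, (x.1.map Prod.fst).filter x.2, x.2)

theorem key_finite [Fintype A] (σ : J → A → List A) (ω : List A) (Q : Set G) (hQ : Q.Finite) :
    (key '' {x | IsPast σ ω Q x}).Finite := by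
  classical
  have h1 : {s : Set (A × G × G) | s ⊆ (Set.univ ×ˢ (Q ×ˢ Q))}.Finite :=
    Set.Finite.finite_subsets (Set.finite_univ.prod (hQ.prod hQ))
  have h2 : {l : List A | l.length ≤ Fintype.card A}.Finite := List.finite_length_le A _
  have h3 : (Set.univ : Set (A → Bool)).Finite := Set.finite_univ
  refine (h1.prod (h2.prod h3)).subset ?_
  rintro k ⟨x, hx, rfl⟩
  obtain ⟨_, _, h4, h5⟩ := hx
  refine ⟨?_, List.Nodup.length_le_card h5, Set.mem_univ _⟩
  intro a ha
  exact ⟨Set.mem_univ _, h4 a ha⟩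

/-- the segments, coloured -/
def col (κ : ℕ → G) (s : A × ℕ × ℕ) : A × G × G := (s.1, κ s.2.1, κ s.2.2)

omit [Group G] in
theorem chn_segs (κ : ℕ → G) (φ : A → List A) (u : List A) (z : ℕ) :
    Chn ((segs φ u z).map (col κ)) (κ z) (κ (z + (u.flatMap φ).length)) := by
  induction u generalizing z with
  | nil => simp [segs, Chn]
  | cons a u ih =>
    rw [segs, List.map_cons, Chn]
    refine ⟨rfl, ?_⟩
    have := ih (z + (φ a).length)
    rw [List.flatMap_cons, List.length_append, ← Nat.add_assoc]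
    exact this

theorem prod_chn (W : List G) (bS : ℕ → G) (κ : ℕ → G)
    (hκ : ∀ z ≤ W.length, (W.take z).prod = bS z * κ z)
    (g : A × G × G → A × ℕ × ℕ) (v : List (A × G × G))
    (hg : ∀ x ∈ v, (g x).2.1 ≤ (g x).2.2 ∧ (g x).2.2 ≤ W.length ∧ κ (g x).2.1 = x.2.1 ∧
      κ (g x).2.2 = x.2.2) (x y : G) (hv : Chn v x y) :
    (v.flatMap (fun a => sub W (g a))).prod =
      x⁻¹ * (v.map fun a => (bS (g a).2.1)⁻¹ * bS (g a).2.2).prod * y := by
  induction v generalizing x with
  | nil =>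
    rw [Chn] at hv
    simp [hv]
  | cons a v ih =>
    rw [Chn] at hv
    obtain ⟨h1, h2⟩ := hv
    obtain ⟨h3, h4, h5, h6⟩ := hg a (by simp)
    rw [List.flatMap_cons, List.prod_append, ih (fun x hx => hg x (by simp [hx])) _ h2,
      prod_sub _ _ h3, hκ _ h4, hκ _ (h3.trans h4), h5, h6, h1, List.map_cons, List.prod_cons]
    group

/-- two segments with the same long letter are equal -/
theorem seg_unique {l : List (A × ℕ × ℕ)} {Λ : A → Bool}
    (h : ((l.map Prod.fst).filter Λ).Nodup) {s s' : A × ℕ × ℕ} (hs : s ∈ l) (hs' : s' ∈ l)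
    (he : s.1 = s'.1) (hΛ : Λ s.1 = true) : s = s' := by
  rw [List.filter_map] at h
  refine List.inj_on_of_nodup_map h ?_ ?_ he
  · rw [List.mem_filter]
    exact ⟨hs, hΛ⟩
  · rw [List.mem_filter]
    refine ⟨hs', ?_⟩
    simp only [Function.comp_apply]
    rw [← he]
    exact hΛ

theorem rel_at (σ : J → A → List A) (ω : List A) (Q : Set G) (c : ℕ)
    (hc : ∀ x : List (A × G × G) × (A → Bool), IsPast σ ω Q x →
      ∃ y, IsPast σ ω Q y ∧ key y = key x ∧ y.1.length ≤ c)
    (ι : G → A) (W : List G) (X : Set G) (hW : ∀ x ∈ W, x ∈ X)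
    (hL : ∀ w : List G, (∀ x ∈ w, x ∈ X) →
      (∃ js : List J, js.foldl (fun u j => u.flatMap (σ j)) ω = w.map ι) → w.prod = 1)
    (js1 js2 : List J) (u : List A) (hu : js1.foldl (fun u j => u.flatMap (σ j)) ω = u)
    (hW2 : u.flatMap (Phi σ js2) = W.map ι)
    (bk : ℕ → ℕ) (S : ℕ → G) (κ : ℕ → G)
    (hκ : ∀ z ≤ W.length, (W.take z).prod = S (bk z) * κ z) (hκQ : ∀ z ≤ W.length, κ z ∈ Q)
    (hκ0 : κ 0 = 1) (hκ1 : κ W.length = 1) (Λ : A → Bool)
    (hΛ : (u.filter Λ).Nodup) :
    ∃ M : List (Bool × ℕ × ℕ), M.length ≤ c ∧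
      (M.filter (fun a => a.1)).map (fun a => a.2) =
        ((segs (Phi σ js2) u 0).filter (fun s => Λ s.1)).map (fun s => (bk s.2.1, bk s.2.2)) ∧
      (∀ a ∈ M, a.1 = false → ∃ s ∈ segs (Phi σ js2) u 0, Λ s.1 = false ∧
        a.2 = (bk s.2.1, bk s.2.2)) ∧
      (M.map fun a => (S a.2.1)⁻¹ * S a.2.2).prod = 1 := by
  classical
  have : Nonempty A := ⟨ι 1⟩
  set φ := Phi σ js2 with hφ
  set Sg := segs φ u 0 with hSg
  have hlen : (u.flatMap φ).length = W.length := by rw [hW2, List.length_map]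
  have hmem : ∀ s ∈ Sg, s.2.1 ≤ s.2.2 ∧ s.2.2 ≤ W.length ∧ (sub W s).map ι = φ s.1 := by
    intro s hs
    obtain ⟨h1, h2, h3, h4, h5⟩ := mem_segs hs
    refine ⟨by omega, by omega, ?_⟩
    rw [sub, List.map_take, List.map_drop, ← hW2]
    have : s.2.2 - s.2.1 = (φ s.1).length := by omega
    rw [this]
    simpa using h5
  have hfst : Sg.map Prod.fst = u := segs_map_fst _ _ _
  -- the coloured word of the derivation
  have hreal : IsPast σ ω Q (Sg.map (col κ), Λ) := by
    refine ⟨⟨js1, ?_⟩, ?_, ?_, ?_⟩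
    · rw [hu, List.map_map]
      exact hfst.symm
    · have := chn_segs κ φ u 0
      rw [hκ0, Nat.zero_add, hlen, hκ1] at this
      exact this
    · intro a ha
      obtain ⟨s, hs, rfl⟩ := List.mem_map.1 ha
      have := hmem s hs
      exact ⟨hκQ _ (by omega), hκQ _ (by omega)⟩
    · rw [List.map_map]
      have : (Prod.fst ∘ col κ : A × ℕ × ℕ → A) = Prod.fst := rfl
      rw [this, hfst]
      exact hΛ
  obtain ⟨⟨v, Λ'⟩, ⟨⟨js0, hjs0⟩, hchn, hQv, hnd⟩, hkey, hvc⟩ := hc _ hreal
  simp only [key, Prod.mk.injEq] at hkey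
  obtain ⟨hk1, hk2, hk3⟩ := hkey
  simp only at hjs0 hchn hQv hnd hvc hk3
  subst hk3
  have hg : ∀ x ∈ v, ∃ s ∈ Sg, col κ s = x := by
    intro x hx
    have : x ∈ {a | a ∈ v} := hx
    rw [hk1] at this
    exact List.mem_map.1 this
  choose! g hg1 hg2 using hg
  have hg3 : ∀ x ∈ v, (g x).1 = x.1 := fun x hx => congrArg Prod.fst (hg2 x hx)
  -- the product is trivial
  have hprod : (v.flatMap (fun a => sub W (g a))).prod = 1 := by
    apply hL
    · intro x hx
      obtain ⟨a, ha, hx⟩ := List.mem_flatMap.1 hx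
      exact hW x (List.mem_of_mem_drop (List.mem_of_mem_take hx))
    · refine ⟨js0 ++ js2, ?_⟩
      rw [List.foldl_append, hjs0, foldl_eq_flatMap, List.map_flatMap]
      rw [List.flatMap_map]
      apply List.flatMap_congr
      intro a ha
      rw [(hmem _ (hg1 a ha)).2.2, hg3 a ha]
  rw [prod_chn W (fun z => S (bk z)) κ hκ g v (fun x hx => ?_) 1 1 hchn] at hprod
  swap
  · have h1 := hmem _ (hg1 x hx)
    have h2 := hg2 x hx
    exact ⟨h1.1, h1.2.1, congrArg (fun p => p.2.1) h2, congrArg (fun p => p.2.2) h2⟩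
  -- the long letters
  have hF : ∀ a, ∃ y : ℕ × ℕ, ∀ s ∈ Sg, s.1 = a → Λ' a = true → (bk s.2.1, bk s.2.2) = y := by
    intro a
    by_cases h : ∃ s ∈ Sg, s.1 = a ∧ Λ' a = true
    · obtain ⟨s, hs, hsa, hl⟩ := h
      refine ⟨(bk s.2.1, bk s.2.2), fun s' hs' hs'a _ => ?_⟩
      have : s' = s := by
        refine seg_unique (Λ := Λ') ?_ hs' hs (hs'a.trans hsa.symm) (by rw [hs'a]; exact hl)
        rw [hfst]; exact hΛ
      rw [this]
    · refine ⟨(0, 0), fun s hs hsa hl => ?_⟩
      exact absurd ⟨s, hs, hsa, hl⟩ h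
  choose F hF using hF
  refine ⟨v.map (fun x => (Λ' x.1, bk (g x).2.1, bk (g x).2.2)), by simpa using hvc, ?_, ?_, ?_⟩
  · rw [List.filter_map, List.map_map]
    have e1 : (v.filter ((fun a : Bool × ℕ × ℕ => a.1) ∘
        fun x => (Λ' x.1, bk (g x).2.1, bk (g x).2.2))).map
        ((fun a : Bool × ℕ × ℕ => a.2) ∘ fun x => (Λ' x.1, bk (g x).2.1, bk (g x).2.2)) =
        ((v.map Prod.fst).filter Λ').map F := by
      rw [List.filter_map, List.map_map]
      apply List.map_congr_left
      intro x hx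
      rw [List.mem_filter] at hx
      simp only [Function.comp_apply] at hx ⊢
      exact hF x.1 (g x) (hg1 x hx.1) (hg3 x hx.1) hx.2
    have e2 : (Sg.filter (fun s => Λ' s.1)).map (fun s => (bk s.2.1, bk s.2.2)) =
        ((Sg.map Prod.fst).filter Λ').map F := by
      rw [List.filter_map, List.map_map]
      apply List.map_congr_left
      intro s hs
      rw [List.mem_filter] at hs
      simp only [Function.comp_apply]
      exact hF s.1 s hs.1 rfl hs.2
    rw [e1, e2, hk2, List.map_map]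
    rfl
  · intro a ha hf
    obtain ⟨x, hx, rfl⟩ := List.mem_map.1 ha
    exact ⟨g x, hg1 x hx, by rw [hg3 x hx]; exact hf, rfl⟩
  · rw [List.map_map]
    rw [inv_one, one_mul, mul_one] at hprod
    exact hprod

end Pool.Agent.TH719.ED
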