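import Pool.Agent.TH719.ED.Defs

/-!
# Segments of an image under an endomorphism (helper719)
-/

set_option autoImplicit false

namespace Pool.Agent.TH719.ED

variable {A : Type}

/-- the segments of `u.flatMap φ`, starting at position `z` -/
def segs (φ : A → List A) : List A → ℕ → List (A × ℕ × ℕ)
  | [], _ => []
  | a :: u, z => (a, z, z + (φ a).length) :: segs φ u (z + (φ a).length)

theorem segs_map_fst (φ : A → List A) (u : List A) (z : ℕ) :
    (segs φ u z).map Prod.fst = u := by
  induction u generalizing z with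
  | nil => rfl
  | cons a u ih => simp [segs, ih]

theorem segs_length (φ : A → List A) (u : List A) (z : ℕ) :
    (segs φ u z).length = u.length := by
  have h := congrArg List.length (segs_map_fst φ u z)
  simpa using h

theorem mem_segs {φ : A → List A} {u : List A} {z : ℕ} {x : A × ℕ × ℕ} (h : x ∈ segs φ u z) :
    x.1 ∈ u ∧ x.2.2 = x.2.1 + (φ x.1).length ∧ z ≤ x.2.1 ∧
      x.2.2 ≤ z + (u.flatMap φ).length ∧
      ((u.flatMap φ).drop (x.2.1 - z)).take (φ x.1).length = φ x.1 := by
  induction u generalizing z with
  | nil => simp [segs] at h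
  | cons a u ih =>
    rw [segs, List.mem_cons] at h
    rcases h with rfl | h
    · simp
    · obtain ⟨h1, h2, h3, h4, h5⟩ := ih h
      refine ⟨List.mem_cons_of_mem _ h1, h2, by omega, ?_, ?_⟩
      · simp only [List.flatMap_cons, List.length_append]; omega
      · rw [List.flatMap_cons]
        have : x.2.1 - z = (φ a).length + (x.2.1 - (z + (φ a).length)) := by omega
        rw [this, List.drop_append, List.drop_eq_nil_of_le (by omega), List.nil_append,
          Nat.add_sub_cancel_left]
        exact h5

theorem segs_sorted (φ : A → List A) (u : List A) (z : ℕ) :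
    (segs φ u z).Pairwise (fun x y => x.2.2 ≤ y.2.1) := by
  induction u generalizing z with
  | nil => simp [segs]
  | cons a u ih =>
    rw [segs, List.pairwise_cons]
    exact ⟨fun y hy => (mem_segs hy).2.2.1, ih _⟩

theorem segs_append (φ : A → List A) (u v : List A) (z : ℕ) :
    segs φ (u ++ v) z = segs φ u z ++ segs φ v (z + (u.flatMap φ).length) := by
  induction u generalizing z with
  | nil => simp [segs]
  | cons a u ih =>
    simp only [List.cons_append, segs, ih, List.flatMap_cons, List.length_append]
    rw [Nat.add_assoc]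

theorem mem_segs_flatMap {φ' σ φ : A → List A} (hφ : ∀ a, φ a = (σ a).flatMap φ')
    {u : List A} {z : ℕ} {x : A × ℕ × ℕ} :
    x ∈ segs φ' (u.flatMap σ) z ↔ ∃ y ∈ segs φ u z, x ∈ segs φ' (σ y.1) y.2.1 := by
  induction u generalizing z with
  | nil => simp [segs]
  | cons a u ih =>
    rw [List.flatMap_cons, segs_append, List.mem_append, segs, ← hφ]
    rw [ih]
    simp

/-- the positions covered by the segments with a letter satisfying `P` -/
def covS (P : A → Prop) (l : List (A × ℕ × ℕ)) : Set ℕ :=
  {y | ∃ x ∈ l, P x.1 ∧ x.2.1 ≤ y ∧ y < x.2.2}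

theorem covS_anti {φ' σ φ : A → List A} (hφ : ∀ a, φ a = (σ a).flatMap φ') {ℓ : ℕ}
    {u : List A} {z : ℕ} :
    covS (fun a => ℓ ≤ (φ' a).length) (segs φ' (u.flatMap σ) z) ⊆
      covS (fun a => ℓ ≤ (φ a).length) (segs φ u z) := by
  rintro y ⟨x, hx, h1, h2, h3⟩
  obtain ⟨w, hw, hxw⟩ := (mem_segs_flatMap hφ).1 hx
  obtain ⟨g1, g2, g3, g4, g5⟩ := mem_segs hxw
  obtain ⟨k1, k2, k3, k4, k5⟩ := mem_segs hw
  have h6 : (φ' x.1).length ≤ (φ w.1).length := by
    rw [← g5]
    refine (List.length_take_le' _ _).trans ?_
    rw [List.length_drop, ← hφ]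
    omega
  refine ⟨w, hw, h1.trans h6, by omega, ?_⟩
  rw [k2, hφ]
  omega

theorem uncovered_card {φ : A → List A} {P : A → Prop} {ℓ : ℕ}
    (hP : ∀ a, ¬ P a → (φ a).length ≤ ℓ) (u : List A) (z : ℕ) :
    (Set.Ico z (z + (u.flatMap φ).length) \ covS P (segs φ u z)).ncard ≤ u.length * ℓ := by
  induction u generalizing z with
  | nil => simp
  | cons a u ih =>
    have hsub : (Set.Ico z (z + ((a :: u).flatMap φ).length) \ covS P (segs φ (a :: u) z)) ⊆
        (Set.Ico z (z + (φ a).length) \ covS P [(a, z, z + (φ a).length)]) ∪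
        (Set.Ico (z + (φ a).length) (z + (φ a).length + (u.flatMap φ).length) \
          covS P (segs φ u (z + (φ a).length))) := by
      rintro y ⟨hy1, hy2⟩
      simp only [List.flatMap_cons, List.length_append, Set.mem_Ico] at hy1
      by_cases hc : y < z + (φ a).length
      · left
        refine ⟨⟨hy1.1, hc⟩, fun h => hy2 ?_⟩
        obtain ⟨x, hx, h1⟩ := h
        exact ⟨x, by simp only [List.mem_singleton] at hx; rw [hx]; simp [segs], h1⟩
      · right
        refine ⟨⟨by omega, by omega⟩, fun h => hy2 ?_⟩
        obtain ⟨x, hx, h1⟩ := h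
        exact ⟨x, by simp [segs, hx], h1⟩
    have hfin1 : (Set.Ico z (z + (φ a).length) \ covS P [(a, z, z + (φ a).length)]).Finite :=
      (Set.finite_Ico _ _).subset Set.sdiff_subset
    have hfin2 : (Set.Ico (z + (φ a).length) (z + (φ a).length + (u.flatMap φ).length) \
          covS P (segs φ u (z + (φ a).length))).Finite :=
      (Set.finite_Ico _ _).subset Set.sdiff_subset
    refine (Set.ncard_le_ncard hsub (hfin1.union hfin2)).trans ((Set.ncard_union_le _ _).trans ?_)
    have h1 : (Set.Ico z (z + (φ a).length) \ covS P [(a, z, z + (φ a).length)]).ncard ≤ ℓ := by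
      by_cases ha : P a
      · have : (Set.Ico z (z + (φ a).length) \ covS P [(a, z, z + (φ a).length)]) = ∅ := by
          ext y
          simp only [Set.mem_sdiff, Set.mem_Ico, Set.mem_empty_iff_false, iff_false, not_and,
            not_not]
          intro hy
          exact ⟨_, List.mem_singleton_self _, ha, hy.1, hy.2⟩
        rw [this]; simp
      · refine (Set.ncard_le_ncard Set.sdiff_subset (Set.finite_Ico _ _)).trans ?_
        rw [← Finset.coe_Ico, Set.ncard_coe_finset]
        simpa using hP a ha
    have h2 := ih (z + (φ a).length)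
    rw [List.length_cons, Nat.add_mul, Nat.one_mul]
    omega

end Pool.Agent.TH719.ED
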