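import Pool.Agent.TH719.ED.Swp1

/-!
# Closed paths in a group with EDT0L word problem can be swept (helper719)
-/

set_option autoImplicit false

namespace Pool.Agent.TH719.ED

variable {G : Type} [Group G] {A : Type} {J : Type}

theorem length_deco_le (p q : G) (b : ℕ) (Bs : List (List G)) (es : List Bool)
    (hB : ∀ B ∈ Bs, B.length ≤ b) : (deco p q Bs es).length ≤ (b + 2) * Bs.length := by
  induction Bs generalizing es with
  | nil => simp [deco]
  | cons B Bs ih =>
    cases es with
    | nil => simp [deco]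
    | cons e es =>
      have h1 := ih es (fun C hC => hB C (by simp [hC]))
      have h2 := hB B (by simp)
      have h3 : (if e then [p, p⁻¹] else [q, q⁻¹]).length = 2 := by split_ifs <;> rfl
      rw [deco, List.length_append, List.length_append, h3, List.length_cons, Nat.mul_add]
      omega

theorem mem_deco (X : Set G) (p q : G) (hp : p ∈ X) (hp' : p⁻¹ ∈ X) (hq : q ∈ X)
    (hq' : q⁻¹ ∈ X) (Bs : List (List G)) (es : List Bool)
    (hB : ∀ B ∈ Bs, ∀ x ∈ B, x ∈ X) : ∀ x ∈ deco p q Bs es, x ∈ X := by
  induction Bs generalizing es with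
  | nil => simp [deco]
  | cons B Bs ih =>
    cases es with
    | nil => simp [deco]
    | cons e es =>
      intro x hx
      rw [deco, List.mem_append, List.mem_append] at hx
      rcases hx with (hx | hx) | hx
      · exact hB B (by simp) x hx
      · split_ifs at hx
        · simp only [List.mem_cons, List.not_mem_nil, or_false] at hx
          rcases hx with rfl | rfl <;> assumption
        · simp only [List.mem_cons, List.not_mem_nil, or_false] at hx
          rcases hx with rfl | rfl <;> assumption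
      · exact ih es (fun C hC => hB C (by simp [hC])) x hx

/-- the product of the first blocks -/
theorem prod_blocks (p q : G) (S : ℕ → G) (rep : G → List G) (hrep : ∀ g, (rep g).prod = g)
    (m : ℕ) (es : List Bool) (hes : es.length = m) (hS0 : S 0 = 1) (i : ℕ) (hi : i ≤ m) :
    (((blocks p q ((List.range m).map (fun i => rep ((S i)⁻¹ * S (i + 1)))) es).take i).flatten).prod
      = S i := by
  set Cs := blocks p q ((List.range m).map (fun i => rep ((S i)⁻¹ * S (i + 1)))) es with hCs
  have hlen : Cs.length = m := by simp [hCs, blocks, hes]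
  induction i with
  | zero => simp [hS0]
  | succ i ih =>
    have hi' : i < Cs.length := by omega
    rw [List.take_succ_eq_append_getElem hi', List.flatten_append, List.prod_append,
      ih (by omega)]
    have h1 : Cs[i].prod = (S i)⁻¹ * S (i + 1) := by
      have hie : i < es.length := by omega
      have : Cs[i] = rep ((S i)⁻¹ * S (i + 1)) ++
          (if es[i] then [p, p⁻¹] else [q, q⁻¹]) := by
        simp [hCs, blocks]
      rw [this, List.prod_append, hrep]
      split_ifs <;> simp
    simp [h1]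

theorem log_bound (b m n : ℕ) (h : n ≤ (b + 2) * m) :
    (b + 2) * (2 * Nat.log 2 n + 6) ≤
      ((b + 2) * (2 * (Nat.log 2 (b + 2) + 1) + 8)) * (Nat.log 2 m + 1) := by
  have h1 : Nat.log 2 n ≤ Nat.log 2 (b + 2) + Nat.log 2 m + 1 := by
    rcases Nat.eq_zero_or_pos m with rfl | hm
    · rw [Nat.mul_zero] at h
      have : n = 0 := by omega
      simp [this]
    · refine (Nat.log_mono_right h).trans ?_
      have h2 : (b + 2) * m < 2 ^ (Nat.log 2 (b + 2) + Nat.log 2 m + 1 + 1) := by
        have a1 := Nat.lt_pow_succ_log_self (b := 2) (by norm_num) (b + 2)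
        have a2 := Nat.lt_pow_succ_log_self (b := 2) (by norm_num) m
        calc (b + 2) * m < 2 ^ (Nat.log 2 (b + 2)).succ * 2 ^ (Nat.log 2 m).succ :=
              Nat.mul_lt_mul'' a1 a2
          _ = _ := by rw [← pow_add]; congr 1; omega
      have h3 := Nat.log_lt_of_lt_pow (b := 2) (by positivity) h2
      omega
  rw [Nat.mul_assoc]
  refine Nat.mul_le_mul_left _ ?_
  have : 2 * Nat.log 2 n + 6 ≤ 2 * (Nat.log 2 (b + 2) + Nat.log 2 m + 1) + 6 := by omega
  refine this.trans ?_
  nlinarith [Nat.zero_le (Nat.log 2 (b + 2) * Nat.log 2 m)]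

theorem sweepable_of_edt0l [Fintype A] [Fintype J] (X : Set G) (ι : G → A)
    (ω : List A) (σ : J → A → List A)
    (hgen : ∀ g : G, ∃ w : List G, (∀ x ∈ w, x ∈ X) ∧ w.prod = g)
    (hXi : ∀ x ∈ X, x⁻¹ ∈ X) (hι : Set.InjOn ι X)
    (hL : ∀ w : List G, (∀ x ∈ w, x ∈ X) →
      (w.prod = 1 ↔ ∃ js : List J, js.foldl (fun u j => u.flatMap (σ j)) ω = w.map ι))
    (p q : G) (hp : p ∈ X) (hq : q ∈ X) (hpq : p ≠ q) (E : Finset G) :
    Sweepable (E : Set G) := by
  classical
  choose rep hrepX hrep using hgen
  -- constants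
  set b := E.sup (fun e => (rep e).length) with hb
  have hbE : ∀ e ∈ E, (rep e).length ≤ b := fun e he =>
    Finset.le_sup (f := fun e => (rep e).length) he
  set Q : Set G := {g | ∃ e ∈ E, ∃ ε : Bool, ∃ k ≤ b + 2,
      g = ((rep e ++ (if ε then [p, p⁻¹] else [q, q⁻¹])).take k).prod} ∪ {1} with hQ
  have hQfin : Q.Finite := by
    refine Set.Finite.union ?_ (Set.finite_singleton _)
    have : (Set.range (fun x : E × Bool × Fin (b + 3) =>
      ((rep x.1.1 ++ (if x.2.1 then [p, p⁻¹] else [q, q⁻¹])).take x.2.2.1).prod)).Finite :=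
      Set.finite_range _
    refine this.subset ?_
    rintro g ⟨e, he, ε, k, hk, rfl⟩
    exact ⟨(⟨e, he⟩, ε, ⟨k, by omega⟩), rfl⟩
  obtain ⟨c0, hc0⟩ := exists_bound (IsPast σ ω Q) key (fun x => x.1.length)
    (key_finite σ ω Q hQfin)
  set D := (Finset.univ : Finset J).sup (fun j => (Finset.univ : Finset A).sup
    (fun a => (σ j a).length)) with hD
  have hDle : ∀ j a, (σ j a).length ≤ D := fun j a =>
    (Finset.le_sup (f := fun a => (σ j a).length) (Finset.mem_univ a)).trans
      (Finset.le_sup (f := fun j => (Finset.univ : Finset A).sup (fun a => (σ j a).length))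
        (Finset.mem_univ j))
  set B0 := (b + 2) * (2 * (Nat.log 2 (b + 2) + 1) + 8) with hB0
  set r := Fintype.card A with hr
  refine ⟨r, c0 + (r * D + ω.length + 1) * B0, ?_⟩
  intro m S hS0 hSm hSE
  set c := c0 + (r * D + ω.length + 1) * B0 with hc
  set K := c * (Nat.log 2 m + 1) with hK
  -- the decorated word
  set Bs := (List.range m).map (fun i => rep ((S i)⁻¹ * S (i + 1))) with hBs
  have hBsb : ∀ B ∈ Bs, B.length ≤ b := by
    intro B hB
    obtain ⟨i, hi, rfl⟩ := List.mem_map.1 hB
    exact hbE _ (hSE i (List.mem_range.1 hi))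
  obtain ⟨es, hes, hinc⟩ := exists_deco p q hpq b Bs hBsb
  set W := deco p q Bs es with hW
  set ℓ := (b + 2) * (2 * Nat.log 2 W.length + 6) with hℓ
  have hlenBs : Bs.length = m := by simp [hBs]
  have hesm : es.length = m := by omega
  have hWlen : W.length ≤ (b + 2) * m := by
    have := length_deco_le p q b Bs es hBsb
    rwa [hlenBs] at this
  have hℓK : ℓ ≤ B0 * (Nat.log 2 m + 1) := log_bound b m W.length hWlen
  have hℓ2 : 2 ≤ ℓ := by
    rw [hℓ]
    calc 2 ≤ 2 * 6 := by norm_num
      _ ≤ (b + 2) * (2 * Nat.log 2 W.length + 6) := Nat.mul_le_mul (by omega) (by omega)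
  set Cs := blocks p q Bs es with hCs
  have hWC : W = Cs.flatten := deco_eq p q Bs es
  have hCslen : Cs.length = m := by simp [hCs, blocks, hesm, hlenBs]
  have hCform : ∀ C ∈ Cs, ∃ e ∈ E, ∃ ε : Bool,
      C = rep e ++ (if ε then [p, p⁻¹] else [q, q⁻¹]) := by
    intro C hC
    obtain ⟨i, hi, rfl⟩ := List.mem_iff_getElem.1 hC
    have hi' : i < m := by omega
    have hie : i < es.length := by omega
    refine ⟨(S i)⁻¹ * S (i + 1), hSE i hi', es[i], ?_⟩
    simp [hCs, blocks, hBs]
  have hCne : ∀ C ∈ Cs, C ≠ [] := by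
    intro C hC
    obtain ⟨e, _, ε, rfl⟩ := hCform C hC
    split_ifs <;> simp
  have hWX : ∀ x ∈ W, x ∈ X := by
    refine mem_deco X p q hp (hXi _ hp) hq (hXi _ hq) Bs es ?_
    intro B hB
    obtain ⟨i, hi, rfl⟩ := List.mem_map.1 hB
    exact hrepX _
  have hpre : ∀ i ≤ m, ((Cs.take i).flatten).prod = S i := fun i hi =>
    prod_blocks p q S rep hrep m es hesm hS0 i hi
  have hWprod : W.prod = 1 := by
    have := hpre m le_rfl
    rw [List.take_of_length_le (by omega)] at this
    rw [hWC, this, hSm]
  set bk := blk Cs with hbk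
  set κ : ℕ → G := fun z => (S (bk z))⁻¹ * (W.take z).prod with hκ
  have hκ1 : ∀ z ≤ W.length, (W.take z).prod = S (bk z) * κ z := by
    intro z _
    simp [hκ]
  have hκQ : ∀ z ≤ W.length, κ z ∈ Q := by
    intro z _
    obtain ⟨C, k, h1, h2, h3⟩ := take_flatten Cs z
    have h4 : κ z = (C.take k).prod := by
      rw [hκ]
      simp only
      rw [hWC, h3, List.prod_append, hpre _ ((blk_le_length _ _).trans hCslen.le)]
      simp [hbk]
    rw [h4]
    rcases h1 with h1 | rfl
    · left
      obtain ⟨e, he, ε, rfl⟩ := hCform C h1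
      refine ⟨e, he, ε, k, ?_, rfl⟩
      have h5 : (rep e ++ (if ε then [p, p⁻¹] else [q, q⁻¹])).length ≤ b + 2 := by
        have := hbE e he
        rw [List.length_append]
        have h3 : (if ε then [p, p⁻¹] else [q, q⁻¹]).length = 2 := by split_ifs <;> rfl
        omega
      omega
    · right
      simp
  have hκ0 : κ 0 = 1 := by
    rw [hκ]
    simp only
    rw [hbk, blk_zero Cs hCne, hS0]
    simp
  have hκm : κ W.length = 1 := by
    rw [hκ]
    simp only
    have : bk W.length = m := by rw [hbk, hWC, blk_total, hCslen]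
    rw [this, hSm, List.take_length, hWprod]
    simp
  obtain ⟨js, hjs⟩ := (hL W hWX).1 hWprod
  -- the times
  set u : ℕ → List A := fun t => (js.take t).foldl (fun u j => u.flatMap (σ j)) ω with hu
  set φ : ℕ → A → List A := fun t => Phi σ (js.drop t) with hφ
  have huφ : ∀ t, (u t).flatMap (φ t) = W.map ι := by
    intro t
    rw [hφ, ← foldl_eq_flatMap, hu]
    simp only
    rw [← List.foldl_append, List.take_append_drop]
    exact hjs
  have hnd : ∀ t, ((u t).filter (fun a => decide (ℓ ≤ (φ t a).length))).Nodup := fun t =>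
    long_nodup ι X hι W hWX ℓ (by omega) hinc (φ t) (u t) (huφ t)
  set L : ℕ → List (ℕ × ℕ) := fun t => ints bk ℓ (φ t) (u t) with hLdef
  have hlenu : ∀ t, ((u t).flatMap (φ t)).length = W.length := fun t => by
    rw [huφ, List.length_map]
  have hLlen : ∀ t, (L t).length ≤ r := by
    intro t
    have h1 : (L t).length =
        ((u t).filter (fun a => decide (ℓ ≤ (φ t a).length))).length := by
      rw [hLdef]
      simp only [ints]
      rw [List.length_map]
      conv_rhs => rw [← segs_map_fst (φ t) (u t) 0, List.filter_map, List.length_map]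
      rfl
    rw [h1]
    exact (hnd t).length_le_card
  have hbkm : ∀ z, bk z ≤ m := fun z => (blk_le_length _ _).trans hCslen.le
  have hbkmono : Monotone bk := blk_mono Cs
  -- the step
  have hstep : ∀ t, ∃ τ : A → List A, (∀ a, φ t a = (τ a).flatMap (φ (t + 1))) ∧
      u (t + 1) = (u t).flatMap τ ∧ (t < js.length → ∀ a, (τ a).length ≤ D) ∧
      (js.length ≤ t → φ (t + 1) = φ t ∧ u (t + 1) = u t) := by
    intro t
    rcases Nat.lt_or_ge t js.length with ht | ht
    · refine ⟨σ js[t], ?_, ?_, fun _ a => hDle _ a, fun h => absurd h (by omega)⟩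
      · intro a
        rw [hφ]
        simp only
        rw [List.drop_eq_getElem_cons ht, Phi_cons]
      · rw [hu]
        simp only
        rw [List.take_succ_eq_append_getElem ht, List.foldl_append]
        rfl
    · have e1 : js.drop (t + 1) = [] := List.drop_eq_nil_of_le (by omega)
      have e2 : js.drop t = [] := List.drop_eq_nil_of_le ht
      have e3 : js.take (t + 1) = js := List.take_of_length_le (by omega)
      have e4 : js.take t = js := List.take_of_length_le ht
      refine ⟨fun a => [a], ?_, ?_, fun h => absurd h (by omega), fun _ => ?_⟩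
      · intro a
        rw [hφ]
        simp only
        rw [e1, e2]
        simp [Phi_nil]
      · rw [hu]
        simp only
        rw [e3, e4]
        simp
      · rw [hφ, hu]
        simp only
        rw [e1, e2, e3, e4]
        exact ⟨rfl, rfl⟩
  have hcov : ∀ t j, j ∈ Cov (L t) ↔ j < m ∧
      fin Cs j ∈ covS (fun a => ℓ ≤ (φ t a).length) (segs (φ t) (u t) 0) := by
    intro t j
    rw [← hCslen]
    exact mem_cov_ints Cs hCne ℓ (φ t) (u t) j
  have hcovfin : ∀ t, (covS (fun a => ℓ ≤ (φ t a).length) (segs (φ t) (u t) 0)).Finite := by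
    intro t
    refine (Set.finite_Iio (W.length)).subset ?_
    rintro y ⟨s, hs, _, _, h3⟩
    obtain ⟨_, _, _, h4, _⟩ := mem_segs hs
    have := hlenu t
    simp only [Set.mem_Iio]
    omega
  have hinj : Set.InjOn (fin Cs) (Set.Iio m) := by
    rw [← hCslen]
    exact fin_inj Cs hCne
  have hB1 : ∀ x : ℕ, x ≤ r * D + ω.length + 1 → x * ℓ ≤ K := by
    intro x hx
    calc x * ℓ ≤ (r * D + ω.length + 1) * (B0 * (Nat.log 2 m + 1)) := Nat.mul_le_mul hx hℓK
      _ = ((r * D + ω.length + 1) * B0) * (Nat.log 2 m + 1) := by ring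
      _ ≤ K := Nat.mul_le_mul_right _ (by omega)
  refine ⟨js.length, L, hLlen, ?_, ?_, ?_, ?_, ?_, ?_, ?_⟩
  · -- sorted
    intro t
    rw [hLdef]
    simp only [ints]
    rw [List.pairwise_map]
    refine ((segs_sorted (φ t) (u t) 0).filter _).imp ?_
    intro x y hxy
    exact hbkmono hxy
  · -- bounded
    intro t a ha
    obtain ⟨s, hs, rfl⟩ := List.mem_map.1 ha
    obtain ⟨_, h2, _, _, _⟩ := mem_segs (List.mem_filter.1 hs).1
    exact ⟨hbkmono (by omega), hbkm _⟩
  · -- antitone
    intro t j hj
    rw [hcov] at hj ⊢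
    obtain ⟨τ, h1, h2, _, _⟩ := hstep t
    refine ⟨hj.1, covS_anti h1 ?_⟩
    rw [← h2]
    exact hj.2
  · -- start
    have h1 := uncovered_card (φ := φ 0) (P := fun a => ℓ ≤ (φ 0 a).length) (ℓ := ℓ)
      (fun a ha => by simp only [not_le] at ha; exact ha.le) (u 0) 0
    have h2 : (Set.Iio m \ Cov (L 0)).ncard ≤
        (Set.Ico 0 (0 + ((u 0).flatMap (φ 0)).length) \
          covS (fun a => ℓ ≤ (φ 0 a).length) (segs (φ 0) (u 0) 0)).ncard := by
      refine ncard_le_of_inj (fin Cs) (hinj.mono Set.sdiff_subset) ?_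
        ((Set.finite_Ico _ _).subset Set.sdiff_subset)
      rintro j ⟨hj1, hj2⟩
      refine ⟨⟨Nat.zero_le _, ?_⟩, fun h => hj2 ((hcov 0 j).2 ⟨hj1, h⟩)⟩
      rw [Nat.zero_add, hlenu 0]
      have h3 : j < blk Cs W.length := by
        rw [hWC, blk_total, hCslen]; exact hj1
      exact (lt_blk_iff_fin Cs hCne j _ (by rw [hCslen]; exact hj1)).1 h3
    refine h2.trans (h1.trans ?_)
    have h4 : (u 0).length = ω.length := by simp [hu]
    rw [h4]
    exact hB1 _ (by omega)
  · -- step
    intro t
    obtain ⟨τ, h1, h2, h3, h4⟩ := hstep t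
    rcases Nat.lt_or_ge t js.length with ht | ht
    · have h5 := step_card h1 (ℓ := ℓ) (h3 ht) (u t) (N := r) ((hnd t).length_le_card)
      rw [← h2] at h5
      have h6 : (Cov (L t) \ Cov (L (t + 1))).ncard ≤
          (covS (fun a => ℓ ≤ (φ t a).length) (segs (φ t) (u t) 0) \
            covS (fun a => ℓ ≤ (φ (t + 1) a).length) (segs (φ (t + 1)) (u (t + 1)) 0)).ncard := by
        refine ncard_le_of_inj (fin Cs) (hinj.mono ?_) ?_
          ((hcovfin t).subset Set.sdiff_subset)
        · rintro j ⟨hj, _⟩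
          exact ((hcov t j).1 hj).1
        · rintro j ⟨hj1, hj2⟩
          have hj3 := (hcov t j).1 hj1
          exact ⟨hj3.2, fun h => hj2 ((hcov (t + 1) j).2 ⟨hj3.1, h⟩)⟩
      refine h6.trans (h5.trans ?_)
      rw [← Nat.mul_assoc]
      exact hB1 _ (by omega)
    · have h5 := h4 ht
      have h6 : L (t + 1) = L t := by
        rw [hLdef]
        simp only
        rw [h5.1, h5.2]
      rw [h6]
      simp
  · -- final
    have h1 : L js.length = [] := by
      rw [hLdef]
      simp only [ints]
      rw [List.map_eq_nil_iff, List.filter_eq_nil_iff]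
      intro s _
      have : φ js.length s.1 = [s.1] := by
        rw [hφ]
        simp only
        rw [List.drop_length, Phi_nil]
      rw [this]
      simp only [List.length_singleton, decide_eq_true_eq, not_le]
      omega
    rw [h1]
    ext j
    simp [Cov]
  · -- the relation
    intro t
    obtain ⟨M, hM1, hM2, hM3, hM4⟩ := rel_at σ ω Q c0 hc0 ι W X hWX
      (fun w hw h => (hL w hw).2 h) (js.take t) (js.drop t) (u t) rfl (huφ t) bk S κ hκ1 hκQ
      hκ0 hκm (fun a => decide (ℓ ≤ (φ t a).length)) (hnd t)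
    refine ⟨M, by omega, ?_, ?_, hM4⟩
    · rw [hM2]
      rfl
    · intro a ha hf
      obtain ⟨s, hs, hs1, hs2⟩ := hM3 a ha hf
      rw [hs2]
      obtain ⟨_, h2, _, _, _⟩ := mem_segs hs
      simp only [decide_eq_false_iff_not, not_le] at hs1
      refine ⟨hbkmono (by omega), ?_, hbkm _⟩
      have h5 := blk_add_le Cs hCne s.2.1 (s.2.2 - s.2.1)
      have h6 : s.2.1 + (s.2.2 - s.2.1) = s.2.2 := by omega
      rw [h6] at h5
      have h7 := hB1 1 (by omega)
      have h8 : s.2.2 - s.2.1 < ℓ := by
        have : (φ t s.1).length < ℓ := hs1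
        have h9 : s.2.2 = s.2.1 + (φ t s.1).length := h2
        omega
      simp only [hbk]
      omega

end Pool.Agent.TH719.ED
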