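import Pool.Agent.TH719.ED.Rel
import Pool.Agent.TH142.ED.Deco

/-!
# Closed paths in a group with EDT0L word problem can be swept: preparations (helper719)
-/

set_option autoImplicit false

namespace Pool.Agent.TH719.ED

variable {G : Type} [Group G] {A : Type} {J : Type}

/-- the blocks of the decorated word -/
def blocks (p q : G) (Bs : List (List G)) (es : List Bool) : List (List G) :=
  List.zipWith (fun B e => B ++ (if e then [p, p⁻¹] else [q, q⁻¹])) Bs es

theorem deco_eq (p q : G) (Bs : List (List G)) (es : List Bool) :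
    deco p q Bs es = (blocks p q Bs es).flatten := by
  induction Bs generalizing es with
  | nil => simp [deco, blocks]
  | cons B Bs ih =>
    cases es with
    | nil => simp [deco, blocks]
    | cons e es =>
      rw [deco, ih]
      simp [blocks]

omit [Group G] in
/-- long letters occur once -/
theorem long_nodup (ι : G → A) (X : Set G) (hι : Set.InjOn ι X) (W : List G)
    (hWX : ∀ x ∈ W, x ∈ X) (ℓ : ℕ) (hℓ : 0 < ℓ)
    (hinc : ∀ z z' : ℕ, z < z' → z' + ℓ ≤ W.length → ∃ i < ℓ, W[z + i]? ≠ W[z' + i]?)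
    (φ : A → List A) (u : List A) (hW : u.flatMap φ = W.map ι) :
    (u.filter (fun a => decide (ℓ ≤ (φ a).length))).Nodup := by
  have h1 : u.filter (fun a => decide (ℓ ≤ (φ a).length)) =
      (((segs φ u 0).filter (fun s => decide (ℓ ≤ (φ s.1).length))).map Prod.fst) := by
    conv_lhs => rw [← segs_map_fst φ u 0, List.filter_map]
    rfl
  rw [h1, List.Nodup, List.pairwise_map]
  have h2 := (segs_sorted φ u 0).filter (fun s => decide (ℓ ≤ (φ s.1).length))
  refine h2.imp_of_mem ?_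
  intro x y hx hy hxy he
  rw [List.mem_filter] at hx hy
  obtain ⟨hx, hxl⟩ := hx
  obtain ⟨hy, hyl⟩ := hy
  simp only [decide_eq_true_eq] at hxl hyl
  obtain ⟨a1, a2, a3, a4, a5⟩ := mem_segs hx
  obtain ⟨b1, b2, b3, b4, b5⟩ := mem_segs hy
  have hlen : (u.flatMap φ).length = W.length := by rw [hW, List.length_map]
  obtain ⟨i, hi, hne⟩ := hinc x.2.1 y.2.1 (by omega) (by omega)
  apply hne
  rw [Nat.sub_zero, hW] at a5 b5
  have c1 : (W.map ι)[x.2.1 + i]? = (φ x.1)[i]? := by
    conv_rhs => rw [← a5]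
    rw [List.getElem?_take_of_lt (by omega), List.getElem?_drop]
  have c2 : (W.map ι)[y.2.1 + i]? = (φ y.1)[i]? := by
    conv_rhs => rw [← b5]
    rw [List.getElem?_take_of_lt (by omega), List.getElem?_drop]
  have c3 : (W.map ι)[x.2.1 + i]? = (W.map ι)[y.2.1 + i]? := by rw [c1, c2, he]
  have hx1 : x.2.1 + i < W.length := by omega
  have hy1 : y.2.1 + i < W.length := by omega
  rw [List.getElem?_map, List.getElem?_map, List.getElem?_eq_getElem hx1,
    List.getElem?_eq_getElem hy1] at c3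
  rw [List.getElem?_eq_getElem hx1, List.getElem?_eq_getElem hy1]
  simp only [Option.map_some, Option.some.injEq] at c3 ⊢
  exact hι (hWX _ (List.getElem_mem _)) (hWX _ (List.getElem_mem _)) c3

/-- positions of the ends of the blocks -/
def fin (Cs : List (List G)) (j : ℕ) : ℕ := ((Cs.take (j + 1)).flatten).length - 1

omit [Group G] in
theorem fin_pos (Cs : List (List G)) (hC : ∀ C ∈ Cs, C ≠ []) (j : ℕ) (hj : j < Cs.length) :
    0 < ((Cs.take (j + 1)).flatten).length := by
  rcases Cs with _ | ⟨C, Cs⟩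
  · simp at hj
  · rw [List.take_succ_cons, List.flatten_cons, List.length_append]
    have := List.length_pos_iff.2 (hC C (by simp))
    omega

omit [Group G] in
theorem lt_blk_iff_fin (Cs : List (List G)) (hC : ∀ C ∈ Cs, C ≠ []) (j z : ℕ)
    (hj : j < Cs.length) : j < blk Cs z ↔ fin Cs j < z := by
  have := fin_pos Cs hC j hj
  rw [lt_blk_iff, fin]
  omega

omit [Group G] in
theorem fin_inj (Cs : List (List G)) (hC : ∀ C ∈ Cs, C ≠ []) :
    Set.InjOn (fin Cs) (Set.Iio Cs.length) := by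
  intro i hi j hj h
  by_contra hne
  have key : ∀ i j, i < Cs.length → j < Cs.length → fin Cs i = fin Cs j → ¬ i < j := by
    intro i j hi hj h hij
    have h1 := (lt_blk_iff_fin Cs hC i (fin Cs j) hi)
    have h2 := (lt_blk_iff_fin Cs hC j (fin Cs j + 1) hj).2 (Nat.lt_succ_self _)
    have h3 := blk_succ_le Cs hC (fin Cs j)
    have h4 : i < blk Cs (fin Cs j) := by omega
    have := h1.1 h4
    omega
  rcases Nat.lt_or_gt_of_ne hne with h1 | h1
  · exact key i j hi hj h h1
  · exact key j i hj hi h.symm h1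

/-- the list of intervals of blocks at a time -/
def ints (bk : ℕ → ℕ) (ℓ : ℕ) (φ : A → List A) (u : List A) : List (ℕ × ℕ) :=
  ((segs φ u 0).filter (fun s => decide (ℓ ≤ (φ s.1).length))).map
    (fun s => (bk s.2.1, bk s.2.2))

omit [Group G] in
theorem mem_cov_ints (Cs : List (List G)) (hC : ∀ C ∈ Cs, C ≠ []) (ℓ : ℕ) (φ : A → List A)
    (u : List A) (j : ℕ) :
    j ∈ Cov (ints (blk Cs) ℓ φ u) ↔
      j < Cs.length ∧ fin Cs j ∈ covS (fun a => ℓ ≤ (φ a).length) (segs φ u 0) := by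
  constructor
  · rintro ⟨a, ha, h1, h2⟩
    obtain ⟨s, hs, rfl⟩ := List.mem_map.1 ha
    rw [List.mem_filter] at hs
    simp only at h1 h2
    have hj : j < Cs.length := h2.trans_le (blk_le_length _ _)
    refine ⟨hj, s, hs.1, by simpa using hs.2, ?_, ?_⟩
    · by_contra hc
      have := (lt_blk_iff_fin Cs hC j s.2.1 hj).2 (by omega)
      omega
    · exact (lt_blk_iff_fin Cs hC j s.2.2 hj).1 h2
  · rintro ⟨hj, s, hs, h1, h2, h3⟩
    refine ⟨(blk Cs s.2.1, blk Cs s.2.2), List.mem_map.2 ⟨s, ?_, rfl⟩, ?_, ?_⟩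
    · rw [List.mem_filter]
      exact ⟨hs, by simpa using h1⟩
    · simp only
      by_contra hc
      have := (lt_blk_iff_fin Cs hC j s.2.1 hj).1 (by omega)
      omega
    · exact (lt_blk_iff_fin Cs hC j s.2.2 hj).2 h3

theorem ncard_le_of_inj {s t : Set ℕ} (f : ℕ → ℕ) (hf : Set.InjOn f s)
    (h : Set.MapsTo f s t) (ht : t.Finite) : s.ncard ≤ t.ncard :=
  Set.ncard_le_ncard_of_injOn f h hf ht

/-- the loss of covered positions in one step -/
theorem step_card {φ' σ φ : A → List A} (hφ : ∀ a, φ a = (σ a).flatMap φ') {ℓ D N : ℕ}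
    (hD : ∀ a, (σ a).length ≤ D) (u : List A)
    (hN : (u.filter (fun a => decide (ℓ ≤ (φ a).length))).length ≤ N) :
    (covS (fun a => ℓ ≤ (φ a).length) (segs φ u 0) \
      covS (fun a => ℓ ≤ (φ' a).length) (segs φ' (u.flatMap σ) 0)).ncard ≤ N * (D * ℓ) := by
  classical
  set l := (segs φ u 0).filter (fun s => decide (ℓ ≤ (φ s.1).length)) with hl
  have hlN : l.length ≤ N := by
    refine le_trans (le_of_eq ?_) hN
    conv_rhs => rw [← segs_map_fst φ u 0, List.filter_map, List.length_map]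
    rfl
  have key : ∀ l' : List (A × ℕ × ℕ), (∀ s ∈ l', s ∈ segs φ u 0) →
      (({y | ∃ s ∈ l', s.2.1 ≤ y ∧ y < s.2.2} \
        covS (fun a => ℓ ≤ (φ' a).length) (segs φ' (u.flatMap σ) 0)).Finite ∧
      ({y | ∃ s ∈ l', s.2.1 ≤ y ∧ y < s.2.2} \
        covS (fun a => ℓ ≤ (φ' a).length) (segs φ' (u.flatMap σ) 0)).ncard ≤
        l'.length * (D * ℓ)) := by
    intro l'
    induction l' with
    | nil => intro _; simp
    | cons s l' ih =>
      intro hs
      obtain ⟨ih1, ih2⟩ := ih (fun x hx => hs x (by simp [hx]))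
      obtain ⟨h1, h2, h3, h4, h5⟩ := mem_segs (hs s (by simp))
      have hfin : (Set.Ico s.2.1 (s.2.1 + ((σ s.1).flatMap φ').length) \
          covS (fun a => ℓ ≤ (φ' a).length) (segs φ' (σ s.1) s.2.1)).Finite :=
        (Set.finite_Ico _ _).subset Set.sdiff_subset
      have hsub : ({y | ∃ x ∈ s :: l', x.2.1 ≤ y ∧ y < x.2.2} \
          covS (fun a => ℓ ≤ (φ' a).length) (segs φ' (u.flatMap σ) 0)) ⊆
          (Set.Ico s.2.1 (s.2.1 + ((σ s.1).flatMap φ').length) \
            covS (fun a => ℓ ≤ (φ' a).length) (segs φ' (σ s.1) s.2.1)) ∪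
          ({y | ∃ x ∈ l', x.2.1 ≤ y ∧ y < x.2.2} \
            covS (fun a => ℓ ≤ (φ' a).length) (segs φ' (u.flatMap σ) 0)) := by
        rintro y ⟨⟨x, hx, hxy⟩, hy⟩
        rcases List.mem_cons.1 hx with rfl | hx
        · left
          refine ⟨⟨hxy.1, ?_⟩, ?_⟩
          · rw [← hφ, ← h2]; exact hxy.2
          · rintro ⟨w, hw, hw1⟩
            exact hy ⟨w, (mem_segs_flatMap hφ).2 ⟨_, hs _ (by simp), hw⟩, hw1⟩
        · right
          exact ⟨⟨x, hx, hxy⟩, hy⟩
      refine ⟨(hfin.union ih1).subset hsub, ?_⟩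
      refine (Set.ncard_le_ncard hsub (hfin.union ih1)).trans
        ((Set.ncard_union_le _ _).trans ?_)
      have h6 := uncovered_card (φ := φ') (P := fun a => ℓ ≤ (φ' a).length) (ℓ := ℓ)
        (fun a ha => by simp only [not_le] at ha; exact ha.le) (σ s.1) s.2.1
      have h7 : (σ s.1).length * ℓ ≤ D * ℓ := Nat.mul_le_mul_right _ (hD _)
      rw [List.length_cons, Nat.add_mul, Nat.one_mul]
      omega
  have h8 := key l (fun s hs => (List.mem_filter.1 hs).1)
  have h9 : covS (fun a => ℓ ≤ (φ a).length) (segs φ u 0) ⊆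
      {y | ∃ s ∈ l, s.2.1 ≤ y ∧ y < s.2.2} := by
    rintro y ⟨s, hs, h1, h2⟩
    exact ⟨s, List.mem_filter.2 ⟨hs, by simpa using h1⟩, h2⟩
  refine (Set.ncard_le_ncard (Set.sdiff_subset_sdiff_left h9) h8.1).trans (h8.2.trans ?_)
  exact Nat.mul_le_mul_right _ hlN

end Pool.Agent.TH719.ED
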